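import Pool.Agent.V5helper30.W3.Stm

/-! # W3, job CNT: counting triples -/

set_option autoImplicit false

open Finset

namespace Pool.Agent.V5helper86.W3

open Pool.Agent.V5helper30.W3

/-- all triples with sum `i` -/
def T (i : ℕ) : Finset (ℕ × ℕ × ℕ) :=
  (range (i + 1) ×ˢ (range (i + 1) ×ˢ range (i + 1))).filter fun p => p.1 + p.2.1 + p.2.2 = i

lemma mem_T {i : ℕ} {p : ℕ × ℕ × ℕ} : p ∈ T i ↔ p.1 + p.2.1 + p.2.2 = i := by
  simp only [T, mem_filter, mem_product, mem_range]
  constructor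
  · rintro ⟨-, h⟩; exact h
  · intro h; exact ⟨⟨by omega, by omega, by omega⟩, h⟩

lemma mem_W {d k i : ℕ} {p : ℕ × ℕ × ℕ} :
    p ∈ W d k i ↔ p.1 + p.2.1 + p.2.2 = i ∧ p.1 / d + p.2.1 / d + p.2.2 / d < k := by
  simp only [W, mem_filter, mem_product, mem_range]
  constructor
  · rintro ⟨-, h⟩; exact h
  · intro h; exact ⟨⟨by omega, by omega, by omega⟩, h⟩

/-- the numbers of the triples in `W` with a compatible property -/
lemma card_W_add (E : ℕ × ℕ × ℕ → Prop) [DecidablePred E] {d k j : ℕ} (hj : j < d)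
    (hE : ∀ q r : ℕ × ℕ × ℕ, r.1 < d → r.2.1 < d → r.2.2 < d →
      (E (d * q.1 + r.1, d * q.2.1 + r.2.1, d * q.2.2 + r.2.2) ↔ E q ∧ E r)) :
    ((W d k (d * k + j)).filter E).card + ((T k).filter E).card * ((T j).filter E).card =
      ((T (d * k + j)).filter E).card := by
  have hd : 0 < d := by omega
  have h1 : (((T (d * k + j)).filter E).filter fun p => k ≤ p.1 / d + p.2.1 / d + p.2.2 / d).card =
      ((T k).filter E).card * ((T j).filter E).card := by
    rw [← card_product]
    refine card_nbij' (fun p => ((p.1 / d, p.2.1 / d, p.2.2 / d), (p.1 % d, p.2.1 % d, p.2.2 % d)))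
      (fun u => (d * u.1.1 + u.2.1, d * u.1.2.1 + u.2.2.1, d * u.1.2.2 + u.2.2.2)) ?_ ?_ ?_ ?_
    · rintro ⟨a, b, c⟩ hp
      simp only [coe_filter, mem_filter, mem_T, Set.mem_ofPred_eq] at hp
      obtain ⟨⟨hs, hp⟩, hk⟩ := hp
      have ha := Nat.div_add_mod a d
      have hb := Nat.div_add_mod b d
      have hc := Nat.div_add_mod c d
      have e1 : d * (a / d + b / d + c / d) + (a % d + b % d + c % d) = d * k + j := by
        rw [← hs, mul_add, mul_add]; omega
      have e2 : a / d + b / d + c / d = k := by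
        refine le_antisymm ?_ hk
        by_contra hcon
        have : k + 1 ≤ a / d + b / d + c / d := by omega
        have := Nat.mul_le_mul_left d this
        rw [mul_add, mul_one] at this
        omega
      have e3 : a % d + b % d + c % d = j := by
        rw [e2] at e1; omega
      have e4 := (hE (a / d, b / d, c / d) (a % d, b % d, c % d) (Nat.mod_lt _ hd) (Nat.mod_lt _ hd)
        (Nat.mod_lt _ hd)).1 (by simpa only [ha, hb, hc] using hp)
      simp only [coe_product, coe_filter, Set.mem_prod, Set.mem_ofPred_eq, mem_T]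
      exact ⟨⟨e2, e4.1⟩, ⟨e3, e4.2⟩⟩
    · rintro ⟨⟨q1, q2, q3⟩, ⟨r1, r2, r3⟩⟩ hu
      simp only [coe_product, coe_filter, Set.mem_prod, Set.mem_ofPred_eq, mem_T] at hu
      obtain ⟨⟨hq, hEq⟩, ⟨hr, hEr⟩⟩ := hu
      simp only [coe_filter, mem_filter, mem_T, Set.mem_ofPred_eq]
      refine ⟨⟨?_, (hE (q1, q2, q3) (r1, r2, r3) (by simp only; omega) (by simp only; omega)
        (by simp only; omega)).2 ⟨hEq, hEr⟩⟩, ?_⟩
      · rw [← hq, ← hr, mul_add, mul_add]; omega
      · rw [Nat.mul_add_div hd, Nat.mul_add_div hd, Nat.mul_add_div hd]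
        calc k = q1 + q2 + q3 := hq.symm
          _ ≤ _ := Nat.add_le_add (Nat.add_le_add (Nat.le_add_right _ _) (Nat.le_add_right _ _)) (Nat.le_add_right _ _)
    · rintro ⟨a, b, c⟩ -
      simp only [Nat.div_add_mod]
    · rintro ⟨⟨q1, q2, q3⟩, ⟨r1, r2, r3⟩⟩ hu
      simp only [coe_product, coe_filter, Set.mem_prod, Set.mem_ofPred_eq, mem_T] at hu
      obtain ⟨⟨hq, hEq⟩, ⟨hr, hEr⟩⟩ := hu
      have h1 : r1 < d := by omega
      have h2 : r2 < d := by omega
      have h3 : r3 < d := by omega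
      simp only [Nat.mul_add_div hd, Nat.div_eq_of_lt h1, Nat.div_eq_of_lt h2, Nat.div_eq_of_lt h3,
        Nat.mul_add_mod, Nat.mod_eq_of_lt h1, Nat.mod_eq_of_lt h2, Nat.mod_eq_of_lt h3, add_zero]
  have h2 : (W d k (d * k + j)).filter E =
      ((T (d * k + j)).filter E).filter fun p => ¬ k ≤ p.1 / d + p.2.1 / d + p.2.2 / d := by
    ext p
    simp only [mem_filter, mem_W, mem_T, not_le]
    tauto
  rw [h2, ← h1, add_comm]
  exact card_filter_add_card_filter_not _

lemma card_T (i : ℕ) : 2 * (T i).card = (i + 1) * (i + 2) := by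
  have h1 : (T i).card = ((range (i + 1)).sigma fun a => range (a + 1)).card := by
    refine card_nbij' (fun p => ⟨i - p.1, p.2.1⟩) (fun u => (i - u.1, u.2, u.1 - u.2)) ?_ ?_ ?_ ?_
    · rintro ⟨a, b, c⟩ hp
      have hp' := mem_T.1 (mem_coe.1 hp)
      simp only at hp'
      simp only [coe_sigma, Set.mem_sigma_iff, coe_range, Set.mem_Iio]
      omega
    · rintro ⟨a, b⟩ hu
      simp only [coe_sigma, Set.mem_sigma_iff, coe_range, Set.mem_Iio] at hu
      refine mem_coe.2 (mem_T.2 ?_)
      simp only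
      omega
    · rintro ⟨a, b, c⟩ hp
      have hp' := mem_T.1 (mem_coe.1 hp)
      simp only at hp'
      simp only [Prod.mk.injEq, true_and]
      omega
    · rintro ⟨a, b⟩ hu
      simp only [coe_sigma, Set.mem_sigma_iff, coe_range, Set.mem_Iio] at hu
      simp only [Sigma.mk.injEq, heq_eq_eq, and_true]
      omega
  rw [h1, card_sigma]
  simp only [card_range]
  clear h1
  induction i with
  | zero => simp
  | succ i ih =>
    rw [sum_range_succ, mul_add, ih]
    ring

lemma card_T2 (i : ℕ) : ((T i).filter fun p => p.1 = p.2.1).card = i / 2 + 1 := by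
  rw [← card_range (i / 2 + 1)]
  refine card_nbij' (fun p => p.1) (fun a => (a, a, i - 2 * a)) ?_ ?_ ?_ ?_
  · rintro ⟨a, b, c⟩ hp
    simp only [coe_filter, mem_T, Set.mem_ofPred_eq] at hp
    simp only [coe_range, Set.mem_Iio]
    omega
  · intro a ha
    simp only [coe_range, Set.mem_Iio] at ha
    simp only [coe_filter, mem_T, Set.mem_ofPred_eq]
    refine ⟨?_, trivial⟩
    omega
  · rintro ⟨a, b, c⟩ hp
    simp only [coe_filter, mem_T, Set.mem_ofPred_eq] at hp
    simp only [Prod.mk.injEq, true_and]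
    omega
  · intro a ha
    rfl

lemma card_T3 (i : ℕ) :
    ((T i).filter fun p => p.1 = p.2.1 ∧ p.2.1 = p.2.2).card = if 3 ∣ i then 1 else 0 := by
  split_ifs with h
  · rw [card_eq_one]
    obtain ⟨a, rfl⟩ := h
    refine ⟨(a, a, a), ?_⟩
    ext ⟨x, y, z⟩
    simp only [mem_filter, mem_T, mem_singleton, Prod.mk.injEq]
    omega
  · rw [card_eq_zero, filter_eq_empty_iff]
    rintro ⟨x, y, z⟩ hp
    have hp' := mem_T.1 hp
    simp only at hp'
    simp only
    omega

/-- two numbers with the same remainder and quotient -/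
lemma eq_iff_aux {d q q' r r' : ℕ} (hr : r < d) (hr' : r' < d) :
    d * q + r = d * q' + r' ↔ q = q' ∧ r = r' := by
  constructor
  · intro h
    have hd : 0 < d := by omega
    have h1 := congrArg (fun t => t / d) h
    have h2 := congrArg (fun t => t % d) h
    simp only [Nat.mul_add_div hd, Nat.div_eq_of_lt hr, Nat.div_eq_of_lt hr', Nat.mul_add_mod,
      Nat.mod_eq_of_lt hr, Nat.mod_eq_of_lt hr', add_zero] at h1 h2
    exact ⟨h1, h2⟩
  · rintro ⟨rfl, rfl⟩; rfl

theorem t_CNT : S_CNT := by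
  intro d k j hd hj
  refine ⟨?_, ?_, ?_⟩
  · have h := card_W_add (fun _ => True) (k := k) hj (fun q r _ _ _ => by simp)
    simp only [filter_true] at h
    have h1 := card_T k
    have h2 := card_T j
    have h3 := card_T (d * k + j)
    have h4 : (k + 1) * (k + 2) * ((j + 1) * (j + 2)) = 4 * ((T k).card * (T j).card) := by
      rw [← h1, ← h2]; ring
    rw [h4, ← h3, ← h]
    ring
  · have h := card_W_add (fun p => p.1 = p.2.1) (k := k) hj
      (fun q r h1 h2 _ => eq_iff_aux h1 h2)
    rw [card_T2, card_T2, card_T2] at h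
    exact h
  · have h := card_W_add (fun p => p.1 = p.2.1 ∧ p.2.1 = p.2.2) (k := k) hj
      (fun q r h1 h2 h3 => by
        simp only [eq_iff_aux h1 h2, eq_iff_aux h2 h3]
        tauto)
    rw [card_T3, card_T3, card_T3] at h
    have e : (if 3 ∣ k then 1 else 0) * (if 3 ∣ j then 1 else 0) = if 3 ∣ k ∧ 3 ∣ j then 1 else 0 := by
      by_cases a : 3 ∣ k <;> by_cases b : 3 ∣ j <;> simp [a, b]
    rw [e] at h
    exact h

end Pool.Agent.V5helper86.W3
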